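import Pool.Agent.Q178.MW.J_RF
import Pool.Agent.Q178.MW.J_LSM
import Pool.Agent.Q178.MW.J_TAN
import Pool.Agent.Q178.MW.J_CHT
import Pool.Agent.Q178.MW.J_PC
import Pool.Agent.Q178.MW.J_VT
import Pool.Agent.Q178.MW.J_PU
import Pool.Agent.Q178.MW.J_INT
import Pool.Agent.Q178.MW.J_FIN
import Pool.Agent.Q178.MW.J_FR
import Pool.Agent.Q178.MW.J_NL
import Pool.Agent.Q178.MW.J_POW
import Pool.Agent.Q178.MW.J_EA
import Pool.Agent.Q178.MW.J_WEA
import Pool.Agent.Q178.MW.J_CON
import Pool.Agent.Q178.MW.J_STK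
import Pool.Agent.Q178.MW.J_DIF
import Pool.Agent.Q178.MW.J_LAP
import Pool.Agent.Q178.MW.J_MEL
import Pool.Agent.Q178.MW.J_LL
import Pool.Agent.Q178.MW.J_CONT
import Pool.Agent.Q178.MW.J_MOB
import Pool.Agent.Q178.MW.J_END
import Pool.Agent.Q178.MW.J_EPR

/-!
# Möbius invariance of the `ν`-weighted energy and residue at `z = -2m`

Full positive answer, for all `m ≥ 1` and every codimension. The paper proof is at the top of
`Pool/Agent/Q178/MW/Stm.lean`.
-/

set_option autoImplicit false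

open MeasureTheory Set Filter Topology
open scoped ContDiff

namespace Pool.Agent.Results.MP_34b615_gt.MoebiusInvariance

open Pool.Agent.Q178.MW

/-- **Theorem.** Let `M` be an oriented closed `m`-dimensional submanifold of `ℝ^n`, `m ≥ 1`, let
`T` be a Möbius transformation with `∞ ∉ T(M)`, and `M' = T(M)` with the transported orientation.
Let `B`, `B'` be the `ν`-weighted meromorphic energy functions of `M` and `M'`. If `m` is odd, both
functions are regular at `-2m`, with the same value. If `m` is even, both have at most a simple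
pole at `-2m`, with the same residue. -/
theorem result (m n : ℕ) (hm : 1 ≤ m) (M M' : Sub m n) (T : E n → E n)
    (hT : IsMoebius T M.carrier) (hI : IsImage T M M') (B B' : ℂ → ℂ) (hB : IsEnergy M B)
    (hB' : IsEnergy M' B') :
    (Odd m → ∃ W : ℂ, Tendsto B (𝓝[≠] (-2 * m : ℂ)) (𝓝 W) ∧
      Tendsto B' (𝓝[≠] (-2 * m : ℂ)) (𝓝 W)) ∧
    (Even m → ∃ W : ℂ, Tendsto (fun z => (z + 2 * m) * B z) (𝓝[≠] (-2 * m : ℂ)) (𝓝 W) ∧
      Tendsto (fun z => (z + 2 * m) * B' z) (𝓝[≠] (-2 * m : ℂ)) (𝓝 W)) := by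
  have hCON : S_CON := JCON.con JFR.fr
  have hSTK : S_STK := JSTK.stk JNL.nl JPU.pu JINT.int JFR.fr JFIN.fin hCON
  have hEA : S_EA := JEA.ea hSTK JPOW.pow JFIN.fin hCON
  have hWEA : S_WEA := JWEA.wea hEA JFR.fr JFIN.fin hCON
  have hCHT : S_CHT := JCHT.cht JTAN.tan JFR.fr
  have hPC : S_PC := JPC.pc hCHT JFR.fr JRF.rf
  have hVT : S_VT := JVT.vt hCHT JPU.pu JINT.int
  have hEPR : S_EPR := JEPR.epr hVT hPC
  have hDIF : S_DIF := JDIF.dif hWEA hEPR JFIN.fin hCON
  have hLL : S_LL := JLL.ll_ (JMEL.mel JLAP.lap)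
  have hCONT : S_CONT := JCONT.cont hLL JLAP.lap JPU.pu JINT.int JFR.fr JFIN.fin hCON
  exact JEND.end_ JMOB.mob JLSM.lsm hDIF hCONT m n hm M M' T hT hI B B' hB hB'

end Pool.Agent.Results.MP_34b615_gt.MoebiusInvariance
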